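import Pool.Graph.R_pool_sql_team_01e80286.Results.MP_d888c7_an.NoSolution

/-!
# Ratios of moments: poles far to the right
-/

set_option autoImplicit false

namespace Pool.Agent.H15.HM

open Set Filter Topology MeasureTheory
open Pool.Agent.Results.MP_d888c7_an.NoSolution

noncomputable section

/-- the second weight -/
def v2 (m : ℕ) (x : ℝ) : ℝ := w2 (x ^ m)

/-- the first weight -/
def v1 (m : ℕ) (x : ℝ) : ℝ := w1 (x ^ m)

theorem int_v2 (m n : ℕ) : ∫ x in (0 : ℝ)..1, v2 m x * x ^ n =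
    6 * ((n + 1 + 16 * m) * ((n + 1 - 4 * m) ^ 2 + 64 * m ^ 2)) /
      (1280 * ((n + 1) * (n + 1 + m) * (n + 1 + 2 * m) * (n + 1 + 3 * m))) := by
  have e : (fun x : ℝ => v2 m x * x ^ n) = fun x => x ^ n - 4005 / 1280 * x ^ (n + m) +
      4200 / 1280 * x ^ (n + 2 * m) - 1469 / 1280 * x ^ (n + 3 * m) := by
    funext x
    simp only [v2, w2, pow_add, pow_mul']
    ring
  rw [e, intervalIntegral.integral_sub, intervalIntegral.integral_add,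
    intervalIntegral.integral_sub]
  · simp only [intervalIntegral.integral_const_mul, integral_pow]
    have h1 : (0 : ℝ) < n + 1 := by positivity
    have h2 : (0 : ℝ) < n + 1 + m := by positivity
    have h3 : (0 : ℝ) < n + 1 + 2 * m := by positivity
    have h4 : (0 : ℝ) < n + 1 + 3 * m := by positivity
    have e2 : ((n + m : ℕ) : ℝ) + 1 = n + 1 + m := by push_cast; ring
    have e3 : ((n + 2 * m : ℕ) : ℝ) + 1 = n + 1 + 2 * m := by push_cast; ring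
    have e4 : ((n + 3 * m : ℕ) : ℝ) + 1 = n + 1 + 3 * m := by push_cast; ring
    rw [e2, e3, e4]
    simp only [one_pow, ne_eq, Nat.add_eq_zero_iff, one_ne_zero, and_false, not_false_eq_true,
      zero_pow, sub_zero]
    field_simp
    ring
  all_goals exact Continuous.intervalIntegrable (by fun_prop) _ _

theorem cont_w2 : Continuous w2 := by unfold w2; fun_prop

theorem int_v1 (m n : ℕ) : ∫ x in (0 : ℝ)..1, v1 m x * x ^ n =
    (∫ x in (0 : ℝ)..1, v2 m x * x ^ n) - 1 / 2 * ∫ x in (0 : ℝ)..1, v2 m x * x ^ (n + m) := by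
  have e : (fun x : ℝ => v1 m x * x ^ n) =
      fun x => v2 m x * x ^ n - 1 / 2 * (v2 m x * x ^ (n + m)) := by
    funext x; simp only [v1, v2, w1, pow_add]; ring
  rw [e, intervalIntegral.integral_sub, intervalIntegral.integral_const_mul]
  all_goals
    refine Continuous.intervalIntegrable ?_ _ _
    have := cont_w2
    unfold v2
    fun_prop

theorem lam_v (m : ℕ) (hm : 1 ≤ m) (n : ℕ) : lam (v1 m) (v2 m) n =
    1 - n * (n + 17 * m) * ((n - 3 * m) ^ 2 + 64 * m ^ 2) /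
    (2 * (n + 4 * m) * (n + 16 * m) * ((n - 4 * m) ^ 2 + 64 * m ^ 2)) := by
  have hm0 : (0 : ℝ) < m := by exact_mod_cast hm
  rcases n with _ | n
  · simp [lam]
  · rw [lam, int_v1, int_v2, int_v2]
    push_cast
    have h1 : (0 : ℝ) < n + 1 := by positivity
    have h2 : (0 : ℝ) < n + 1 + m := by positivity
    have h3 : (0 : ℝ) < n + 1 + 2 * m := by positivity
    have h4 : (0 : ℝ) < n + 1 + 3 * m := by positivity
    have h5 : (0 : ℝ) < n + 1 + 4 * m := by positivity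
    have h6 : (0 : ℝ) < n + 1 + 16 * m := by positivity
    have h7 : (0 : ℝ) < ((n : ℝ) + 1 - 4 * m) ^ 2 + 64 * m ^ 2 := by positivity
    have e1 : (n : ℝ) + m + 1 = n + 1 + m := by ring
    have e2 : (n : ℝ) + 1 + m + m = n + 1 + 2 * m := by ring
    have e3 : (n : ℝ) + 1 + m + 2 * m = n + 1 + 3 * m := by ring
    have e4 : (n : ℝ) + 1 + m + 3 * m = n + 1 + 4 * m := by ring
    have e5 : (n : ℝ) + 1 + m + 16 * m = n + 1 + 17 * m := by ring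
    have e6 : (n : ℝ) + 1 + m - 4 * m = n + 1 - 3 * m := by ring
    rw [e1, e2, e3, e4, e5, e6]
    field_simp

/-- the zero of the denominator -/
def z0 (m : ℕ) : ℂ := 4 * m + 8 * m * Complex.I

/-- The auxiliary sequence with a single pole. -/
def mu (m : ℕ) (j : ℕ) : ℂ :=
  (j + 4 * m) * ((j + 16 * m) * ((j + (-4 * m + 8 * m * Complex.I)) *
    (lam (v1 m) (v2 m) j : ℂ)))

theorem mu_eq (m : ℕ) (hm : 1 ≤ m) (j : ℕ) : ((j : ℂ) - z0 m) * mu m j =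
    1 / 2 * (j : ℂ) ^ 4 + 13 / 2 * m * (j : ℂ) ^ 3 + (-3 / 2) * m ^ 2 * (j : ℂ) ^ 2 +
        935 / 2 * m ^ 3 * (j : ℂ) ^ 1 + 5120 * m ^ 4 := by
  have hm0 : (0 : ℝ) < m := by exact_mod_cast hm
  have e : ((j : ℝ) + 4 * m) * (j + 16 * m) * ((j - 4 * m) ^ 2 + 64 * m ^ 2) *
      lam (v1 m) (v2 m) j =
      1 / 2 * (j : ℝ) ^ 4 + 13 / 2 * m * (j : ℝ) ^ 3 + (-3 / 2) * m ^ 2 * (j : ℝ) ^ 2 +
      935 / 2 * m ^ 3 * (j : ℝ) ^ 1 + 5120 * m ^ 4 := by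
    rw [lam_v m hm]
    have h1 : (0 : ℝ) < ((j : ℝ) - 4 * m) ^ 2 + 64 * m ^ 2 := by positivity
    have h5 : (0 : ℝ) < j + 4 * m := by positivity
    have h6 : (0 : ℝ) < j + 16 * m := by positivity
    field_simp
    ring
  have e' := congrArg (fun x : ℝ => (x : ℂ)) e
  push_cast at e'
  rw [← e', mu, z0]
  linear_combination (-64 * (m : ℂ) ^ 2 * ((j : ℂ) + 4 * m) * (j + 16 * m) *
    (lam (v1 m) (v2 m) j : ℂ)) * Complex.I_sq

theorem z0_ne (m : ℕ) (hm : 1 ≤ m) (j : ℕ) : (j : ℂ) - z0 m ≠ 0 := by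
  intro h
  have h1 := congrArg Complex.im h
  simp [z0] at h1
  omega

/-- the constant -/
def cst (m : ℕ) : ℂ := 1 / 2 * (z0 m) ^ 4 + 13 / 2 * m * (z0 m) ^ 3 +
  (-3 / 2) * m ^ 2 * (z0 m) ^ 2 + 935 / 2 * m ^ 3 * (z0 m) ^ 1 + 5120 * m ^ 4

theorem cst_ne (m : ℕ) (hm : 1 ≤ m) : cst m ≠ 0 := by
  have h1 : cst m = (m : ℂ) ^ 4 * (-(1 / 2) * (4 + 8 * Complex.I) * (21 + 8 * Complex.I) *
      (1 + 16 * Complex.I)) := by
    have h2 := Complex.I_sq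
    have h3 : Complex.I ^ 3 = - Complex.I := by rw [pow_succ, h2]; ring
    have h4 : Complex.I ^ 4 = 1 := by rw [pow_succ, h3]; linear_combination -h2
    rw [cst, z0]
    ring_nf
    rw [h4, h3, h2]
    ring
  rw [h1]
  have hm0 : (m : ℂ) ≠ 0 := by exact_mod_cast (by omega : m ≠ 0)
  refine mul_ne_zero (pow_ne_zero _ hm0) ?_
  intro h
  have h5 := congrArg Complex.im h
  simp at h5
  norm_num at h5

/-- a simple pole -/
def nu (m : ℕ) (j : ℕ) : ℂ := ((j : ℂ) - z0 m)⁻¹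

theorem bt_add (a b : ℕ → ℂ) (N : ℕ) : bt (fun j => a j + b j) N = bt a N + bt b N := by
  simp only [bt, mul_add, Finset.sum_add_distrib]

theorem bt_smul (c : ℂ) (a : ℕ → ℂ) (N : ℕ) : bt (fun j => c * a j) N = c * bt a N := by
  simp only [bt, Finset.mul_sum]
  exact Finset.sum_congr rfl fun j _ => by ring

theorem bt_mu (m : ℕ) (hm : 1 ≤ m) (N : ℕ) (hN : 4 ≤ N) : bt (mu m) N = cst m * bt (nu m) N := by
  set z := z0 m with hz
  set b3 : ℂ := 1 / 2 with hb3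
  set b2 : ℂ := 13 / 2 * m + z * b3 with hb2
  set b1 : ℂ := (-3 / 2) * m ^ 2 + z * b2 with hb1
  set b0 : ℂ := 935 / 2 * m ^ 3 + z * b1 with hb0
  have h1 : mu m = fun j : ℕ => ((b3 * (j : ℂ) ^ 3 + b2 * (j : ℂ) ^ 2) +
      (b1 * (j : ℂ) ^ 1 + b0 * (j : ℂ) ^ 0)) + cst m * nu m j := by
    funext j
    have h2 := z0_ne m hm j
    have h3 := mu_eq m hm j
    refine mul_left_cancel₀ h2 ?_
    rw [h3, mul_add, nu, mul_left_comm _ (cst m), mul_inv_cancel₀ h2, mul_one, cst, ← hz]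
    simp only [hb0, hb1, hb2, hb3]
    ring
  rw [h1, bt_add, bt_add, bt_add, bt_add, bt_smul, bt_smul, bt_smul, bt_smul, bt_smul,
    bt_pow 3 N (by omega), bt_pow 2 N (by omega), bt_pow 1 N (by omega), bt_pow 0 N (by omega)]
  ring

theorem nu_rec (m : ℕ) (hm : 1 ≤ m) (N : ℕ) :
    ((N : ℂ) + 1 - z0 m) * bt (nu m) (N + 1) = (N + 1) * bt (nu m) N := by
  have h1 : (fun j : ℕ => ((j : ℂ) + -z0 m) * nu m j) = fun j : ℕ => (j : ℂ) ^ 0 := by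
    funext j
    rw [nu, ← sub_eq_add_neg, mul_inv_cancel₀ (z0_ne m hm j), pow_zero]
  have h2 := bt_lin (nu m) (-z0 m) N
  rw [h1, bt_pow 0 (N + 1) (by omega)] at h2
  linear_combination -h2

theorem nu_ne (m : ℕ) (hm : 1 ≤ m) (N : ℕ) : bt (nu m) N ≠ 0 := by
  induction N with
  | zero =>
    have h := z0_ne m hm 0
    have h1 : bt (nu m) 0 = nu m 0 := by simp [bt]
    rw [h1, nu]
    exact inv_ne_zero h
  | succ N ih =>
    intro h
    have h1 := nu_rec m hm N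
    rw [h, mul_zero] at h1
    have h2 : ((N : ℂ) + 1) ≠ 0 := by exact_mod_cast Nat.succ_ne_zero N
    exact mul_ne_zero h2 ih h1.symm

theorem nu_norm (m : ℕ) (hm : 1 ≤ m) (N : ℕ) :
    (((N : ℝ) + 1 - 4 * m) ^ 2 + 64 * m ^ 2) * ‖bt (nu m) (N + 1)‖ ^ 2 =
      ((N : ℝ) + 1) ^ 2 * ‖bt (nu m) N‖ ^ 2 := by
  have h := congrArg (fun z : ℂ => ‖z‖ ^ 2) (nu_rec m hm N)
  simp only [norm_mul, mul_pow] at h
  have e1 : ‖(N : ℂ) + 1 - z0 m‖ ^ 2 = ((N : ℝ) + 1 - 4 * m) ^ 2 + 64 * m ^ 2 := by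
    rw [Complex.sq_norm, Complex.normSq_apply, z0]; simp; ring
  have e2 : ‖((N : ℂ) + 1)‖ = N + 1 := by exact_mod_cast Complex.norm_natCast (N + 1)
  rwa [e1, e2] at h

theorem poly_ineq (m : ℕ) (y : ℝ) (hy : 80 * (m : ℝ) ≤ y) (hy0 : 0 < y) :
    (y + 1) ^ (7 * m) * ((y - 4 * m) ^ 2 + 64 * m ^ 2) ≤ y ^ (7 * m) * y ^ 2 := by
  have hm0 : (0 : ℝ) ≤ m := Nat.cast_nonneg m
  have h1 : (0 : ℝ) < y + 1 := by linarith
  have h2 : 1 + ((7 * m : ℕ) : ℝ) * (-(1 / (y + 1))) ≤ (1 + -(1 / (y + 1))) ^ (7 * m) := by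
    apply one_add_mul_le_pow
    have : 1 / (y + 1) ≤ 1 := by
      rw [div_le_one h1]; linarith
    linarith
  have h3 : (1 + -(1 / (y + 1))) * (y + 1) = y := by field_simp; ring
  have h4 : (1 + ((7 * m : ℕ) : ℝ) * (-(1 / (y + 1)))) * (y + 1) ^ (7 * m) ≤ y ^ (7 * m) := by
    calc _ ≤ (1 + -(1 / (y + 1))) ^ (7 * m) * (y + 1) ^ (7 * m) :=
          mul_le_mul_of_nonneg_right h2 (by positivity)
      _ = y ^ (7 * m) := by rw [← mul_pow, h3]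
  have h5 : (y - 4 * m) ^ 2 + 64 * m ^ 2 ≤
      (1 + ((7 * m : ℕ) : ℝ) * (-(1 / (y + 1)))) * y ^ 2 := by
    push_cast
    have h6 : y ^ 2 / (y + 1) ≤ y := by
      rw [div_le_iff₀ h1]; nlinarith
    have h7 : (1 + (7 * (m : ℝ)) * (-(1 / (y + 1)))) * y ^ 2 =
        y ^ 2 - 7 * m * (y ^ 2 / (y + 1)) := by ring
    rw [h7]
    have h8 : 7 * m * (y ^ 2 / (y + 1)) ≤ 7 * m * y :=
      mul_le_mul_of_nonneg_left h6 (by linarith)
    nlinarith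
  calc (y + 1) ^ (7 * m) * ((y - 4 * m) ^ 2 + 64 * m ^ 2)
      ≤ (y + 1) ^ (7 * m) * ((1 + ((7 * m : ℕ) : ℝ) * (-(1 / (y + 1)))) * y ^ 2) :=
        mul_le_mul_of_nonneg_left h5 (by positivity)
    _ = ((1 + ((7 * m : ℕ) : ℝ) * (-(1 / (y + 1)))) * (y + 1) ^ (7 * m)) * y ^ 2 := by ring
    _ ≤ y ^ (7 * m) * y ^ 2 := mul_le_mul_of_nonneg_right h4 (by positivity)

theorem nu_growth (m : ℕ) (hm : 1 ≤ m) (M : ℕ) :
    ‖bt (nu m) (80 * m)‖ ^ 2 * ((M : ℝ) + 80 * m + 1) ^ (7 * m) ≤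
      (80 * (m : ℝ) + 1) ^ (7 * m) * ‖bt (nu m) (M + 80 * m)‖ ^ 2 := by
  induction M with
  | zero => simp [mul_comm]
  | succ M ih =>
    have h := nu_norm m hm (M + 80 * m)
    have hM : (0 : ℝ) ≤ M := Nat.cast_nonneg M
    have hm0 : (0 : ℝ) < m := by exact_mod_cast hm
    have e : M + 1 + 80 * m = M + 80 * m + 1 := by ring
    rw [e]
    push_cast at h ⊢
    have hpoly := poly_ineq m ((M : ℝ) + 80 * m + 1) (by linarith) (by positivity)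
    have hq : 0 < ((M : ℝ) + 80 * m + 1 - 4 * m) ^ 2 + 64 * m ^ 2 := by positivity
    refine le_of_mul_le_mul_right ?_ hq
    calc ‖bt (nu m) (80 * m)‖ ^ 2 * ((M : ℝ) + 1 + 80 * m + 1) ^ (7 * m) *
          (((M : ℝ) + 80 * m + 1 - 4 * m) ^ 2 + 64 * m ^ 2)
        = ‖bt (nu m) (80 * m)‖ ^ 2 * (((M : ℝ) + 80 * m + 1 + 1) ^ (7 * m) *
          (((M : ℝ) + 80 * m + 1 - 4 * m) ^ 2 + 64 * m ^ 2)) := by ring
      _ ≤ ‖bt (nu m) (80 * m)‖ ^ 2 * (((M : ℝ) + 80 * m + 1) ^ (7 * m) *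
          ((M : ℝ) + 80 * m + 1) ^ 2) := by gcongr
      _ = ‖bt (nu m) (80 * m)‖ ^ 2 * ((M : ℝ) + 80 * m + 1) ^ (7 * m) *
          ((M : ℝ) + 80 * m + 1) ^ 2 := by ring
      _ ≤ (80 * (m : ℝ) + 1) ^ (7 * m) * ‖bt (nu m) (M + 80 * m)‖ ^ 2 *
          ((M : ℝ) + 80 * m + 1) ^ 2 := by gcongr
      _ = _ := by linear_combination (-(80 * (m : ℝ) + 1) ^ (7 * m)) * h

/-- the main lemma -/
theorem no_bound (k : ℕ) : ¬ ∃ C : ℝ, ∀ N,
    ‖bt (fun j => ((lam (v1 (k + 3)) (v2 (k + 3)) j : ℝ) : ℂ)) N‖ ≤ C * (N + 1) ^ k := by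
  obtain ⟨m, hm⟩ : ∃ m, m = k + 3 := ⟨_, rfl⟩
  rw [← hm]
  intro h
  have hm1 : 1 ≤ m := by omega
  obtain ⟨C, hC⟩ := bt_bound (4 * m) (bt_bound (16 * m)
    (bt_bound (-4 * m + 8 * m * Complex.I) h))
  have hC' : ∀ N, ‖bt (mu m) N‖ ≤ C * (N + 1) ^ m := by
    rw [hm]
    rw [hm] at hC
    exact hC
  have hb : 0 < ‖bt (nu m) (80 * m)‖ := norm_pos_iff.mpr (nu_ne m hm1 _)
  have hc : 0 < ‖cst m‖ := norm_pos_iff.mpr (cst_ne m hm1)
  have hm0 : (0 : ℝ) < m := by exact_mod_cast hm1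
  set A : ℝ := ‖cst m‖ ^ 2 * ‖bt (nu m) (80 * m)‖ ^ 2 with hA
  set B : ℝ := (80 * (m : ℝ) + 1) ^ (7 * m) * C ^ 2 with hB
  have hA0 : 0 < A := by positivity
  obtain ⟨M, hM⟩ := exists_nat_gt (B / A)
  have h1 := nu_growth m hm1 M
  have h2 := hC' (M + 80 * m)
  rw [bt_mu m hm1 _ (by omega), norm_mul] at h2
  push_cast at h2
  set y : ℝ := (M : ℝ) + 80 * m + 1 with hy
  have hy1 : 1 ≤ y := by
    have : (0 : ℝ) ≤ M := Nat.cast_nonneg M
    linarith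
  have hyM : (M : ℝ) ≤ y := by linarith
  have h3 : (‖cst m‖ * ‖bt (nu m) (M + 80 * m)‖) ^ 2 ≤ (C * y ^ m) ^ 2 := by gcongr
  have h4 : A * y ^ (7 * m) ≤ B * y ^ (2 * m) := by
    calc A * y ^ (7 * m) = ‖cst m‖ ^ 2 * (‖bt (nu m) (80 * m)‖ ^ 2 * y ^ (7 * m)) := by ring
      _ ≤ ‖cst m‖ ^ 2 * ((80 * (m : ℝ) + 1) ^ (7 * m) * ‖bt (nu m) (M + 80 * m)‖ ^ 2) := by
          gcongr
      _ = (80 * (m : ℝ) + 1) ^ (7 * m) * (‖cst m‖ * ‖bt (nu m) (M + 80 * m)‖) ^ 2 := by ring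
      _ ≤ (80 * (m : ℝ) + 1) ^ (7 * m) * (C * y ^ m) ^ 2 := by gcongr
      _ = B * y ^ (2 * m) := by rw [hB, mul_pow, ← pow_mul, mul_comm m 2, mul_assoc]
  have h5 : A * y ≤ B := by
    have h6 : A * y * y ^ (2 * m) ≤ B * y ^ (2 * m) := by
      refine le_trans ?_ h4
      rw [mul_assoc, ← pow_succ']
      refine mul_le_mul_of_nonneg_left ?_ hA0.le
      exact pow_le_pow_right₀ hy1 (by omega)
    exact le_of_mul_le_mul_right h6 (by positivity)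
  rw [div_lt_iff₀ hA0] at hM
  have h7 : A * M ≤ A * y := mul_le_mul_of_nonneg_left hyM hA0.le
  nlinarith

end

end Pool.Agent.H15.HM
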