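import Pool.Agent.H15.HM.Base

/-!
# Functionals of order `k`
-/

set_option autoImplicit false

namespace Pool.Agent.H15.HM

open Set Filter Topology MeasureTheory
open Pool.Agent.Results.MP_d888c7_an.NoSolution

noncomputable section

/-- `a` is the moment sequence of a functional which is continuous for the norm of `C^k[0,1]` -/
def OrderLE (k : ℕ) (a : ℕ → ℝ) : Prop :=
  ∃ C : ℝ, ∀ (p : Polynomial ℝ) (M : ℝ),
    (∀ i ≤ k, ∀ x ∈ Icc (0 : ℝ) 1, |(Polynomial.derivative^[i] p).eval x| ≤ M) →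
    |p.sum fun j c => c * a j| ≤ C * M

theorem bt_of_order {k : ℕ} {a : ℕ → ℝ} (h : OrderLE k a) :
    ∃ C : ℝ, ∀ N, ‖bt (fun j => ((a j : ℝ) : ℂ)) N‖ ≤ C * (N + 1) ^ k := by
  obtain ⟨C, hC⟩ := h
  refine ⟨C, fun N => ?_⟩
  have h1 := hC ((1 - Polynomial.X) ^ N) (((N : ℝ) + 1) ^ k) ?_
  · have h2 : ((1 - Polynomial.X : Polynomial ℝ) ^ N).sum (fun j c => c * a j) =
        ∑ j ∈ Finset.range (N + 1), (-1) ^ j * (N.choose j : ℝ) * a j := by
      rw [Polynomial.sum_over_range' _ (fun n => by simp) (N + 1)]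
      · refine Finset.sum_congr rfl fun j _ => ?_
        congr 1
        have h3 : (1 - Polynomial.X : Polynomial ℝ) = -(Polynomial.X + Polynomial.C (-1)) := by
          rw [map_neg, map_one]; ring
        rw [h3, neg_pow, ← map_one Polynomial.C, ← map_neg, ← map_pow, Polynomial.coeff_C_mul,
          map_neg, map_one, ← map_one Polynomial.C, ← map_neg, Polynomial.coeff_X_add_C_pow]
        rcases le_or_gt j N with hj | hj
        · have h4 : (-1 : ℝ) ^ N * (-1) ^ (N - j) = (-1) ^ j := by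
            rw [← pow_add]
            have : N + (N - j) = 2 * (N - j) + j := by omega
            rw [this, pow_add, pow_mul]
            simp
          rw [← mul_assoc, h4]
        · rw [Nat.choose_eq_zero_of_lt hj]; simp
      · refine lt_of_le_of_lt Polynomial.natDegree_pow_le ?_
        have : (1 - Polynomial.X : Polynomial ℝ).natDegree ≤ 1 := by
          compute_degree
        nlinarith
    rw [h2] at h1
    have e : ‖bt (fun j => ((a j : ℝ) : ℂ)) N‖ =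
        |∑ j ∈ Finset.range (N + 1), (-1) ^ j * (N.choose j : ℝ) * a j| := by
      rw [← Real.norm_eq_abs, ← Complex.norm_real, bt]
      push_cast
      rfl
    rw [e]
    exact h1
  · intro i hi x hx
    have h3 : ((1 - Polynomial.X : Polynomial ℝ)) ^ N =
        Polynomial.C ((-1) ^ N) * (Polynomial.X - Polynomial.C 1) ^ N := by
      rw [map_pow, ← mul_pow]
      congr 1
      simp
    rw [h3, Polynomial.iterate_derivative_C_mul, Polynomial.iterate_derivative_X_sub_pow]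
    simp only [Polynomial.eval_mul, Polynomial.eval_C, nsmul_eq_mul, Polynomial.eval_natCast,
      Polynomial.eval_pow, Polynomial.eval_sub, Polynomial.eval_X, abs_mul, abs_pow, abs_neg,
      abs_one, one_pow, one_mul, Nat.abs_cast]
    have h4 : |x - 1| ≤ 1 := by
      rw [abs_le]
      constructor <;> linarith [hx.1, hx.2]
    have h5 : |x - 1| ^ (N - i) ≤ 1 := pow_le_one₀ (abs_nonneg _) h4
    have h6 : ((N.descFactorial i : ℕ) : ℝ) ≤ (N : ℝ) ^ i := by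
      exact_mod_cast Nat.descFactorial_le_pow N i
    have h7 : (N : ℝ) ^ i ≤ ((N : ℝ) + 1) ^ i := by gcongr; linarith
    have h8 : ((N : ℝ) + 1) ^ i ≤ ((N : ℝ) + 1) ^ k :=
      pow_le_pow_right₀ (by have : (0 : ℝ) ≤ N := Nat.cast_nonneg N
                            linarith) hi
    calc ((N.descFactorial i : ℕ) : ℝ) * |x - 1| ^ (N - i)
        ≤ ((N.descFactorial i : ℕ) : ℝ) * 1 := by gcongr
      _ ≤ ((N : ℝ) + 1) ^ k := by rw [mul_one]; exact h6.trans (h7.trans h8)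

/-- the admissible pairs -/
def Adm (ω₁ ω₂ : ℝ → ℝ) : Prop :=
  InOmega ω₁ ∧ InOmega ω₂ ∧ (MonotoneOn ω₁ (Icc 0 1) ∨ AntitoneOn ω₁ (Icc 0 1)) ∧
    (MonotoneOn ω₂ (Icc 0 1) ∨ AntitoneOn ω₂ (Icc 0 1)) ∧
    AntitoneOn (fun x => ω₁ x / ω₂ x) (Icc 0 1)

theorem pow_mem {x : ℝ} (m : ℕ) (hx : x ∈ Icc (0 : ℝ) 1) : x ^ m ∈ Icc (0 : ℝ) 1 :=
  ⟨pow_nonneg hx.1 m, pow_le_one₀ hx.1 hx.2⟩

theorem omega_of' {ω r : ℝ → ℝ} (m : ℕ) (hm : 1 ≤ m) (hω : Continuous ω) (hr : Continuous r)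
    (hpos : ∀ x ∈ Icc (0 : ℝ) 1, 0 < ω x) (h : ∀ x, 1 - ω x = x * r x) :
    InOmega (fun x => ω (x ^ m)) := by
  refine omega_of (r := fun x => x ^ (m - 1) * r (x ^ m)) (by fun_prop) (by fun_prop)
    (fun x hx => hpos _ (pow_mem m hx)) (fun x => ?_)
  rw [h, ← mul_assoc, ← pow_succ', Nat.sub_add_cancel hm]

theorem v_adm (m : ℕ) (hm : 1 ≤ m) : InOmega (v1 m) ∧ InOmega (v2 m) ∧
    AntitoneOn (v1 m) (Icc 0 1) ∧ AntitoneOn (v2 m) (Icc 0 1) ∧
    AntitoneOn (fun x => v1 m x / v2 m x) (Icc 0 1) := by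
  have hc2 : Continuous w2 := cont_w2
  have hc1 : Continuous w1 := by unfold w1; fun_prop
  have hmono : ∀ x ∈ Icc (0 : ℝ) 1, ∀ y ∈ Icc (0 : ℝ) 1, x ≤ y → x ^ m ≤ y ^ m :=
    fun x hx y _ h => pow_le_pow_left₀ hx.1 h m
  refine ⟨?_, ?_, ?_, ?_, ?_⟩
  · refine omega_of' (ω := w1) (r := fun x => (4005 - 4200 * x + 1469 * x ^ 2) / 1280 + w2 x / 2)
      m hm hc1 (by fun_prop) (fun x hx => mul_pos (w2_pos hx.2) (by linarith [hx.2]))
      (fun x => ?_)
    simp only [w1, w2]; ring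
  · refine omega_of' (ω := w2) (r := fun x => (4005 - 4200 * x + 1469 * x ^ 2) / 1280) m hm hc2
      (by fun_prop) (fun x hx => w2_pos hx.2) (fun x => ?_)
    simp only [w2]; ring
  · intro x hx y hy h
    have h1 := hmono x hx y hy h
    exact mul_le_mul (w2_anti h1) (by linarith) (by linarith [(pow_mem m hy).2])
      (w2_pos (pow_mem m hx).2).le
  · intro x hx y hy h
    exact w2_anti (hmono x hx y hy h)
  · intro x hx y hy h
    simp only [v1, v2, w1]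
    rw [mul_div_cancel_left₀ _ (w2_pos (pow_mem m hx).2).ne',
      mul_div_cancel_left₀ _ (w2_pos (pow_mem m hy).2).ne']
    linarith [hmono x hx y hy h]

theorem neg' (k : ℕ) : ∃ ω₁ ω₂ : ℝ → ℝ, Adm ω₁ ω₂ ∧ AntitoneOn ω₁ (Icc 0 1) ∧
    AntitoneOn ω₂ (Icc 0 1) ∧ (∃ p : Polynomial ℝ, ω₁ = fun x => p.eval x) ∧
    (∃ p : Polynomial ℝ, ω₂ = fun x => p.eval x) ∧ ¬ OrderLE k (lam ω₁ ω₂) ∧
    ¬ ∃ C : ℝ, ∀ N, ‖bt (fun j => ((lam ω₁ ω₂ j : ℝ) : ℂ)) N‖ ≤ C * (N + 1) ^ k := by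
  obtain ⟨h1, h2, h3, h4, h5⟩ := v_adm (k + 3) (by omega)
  refine ⟨v1 (k + 3), v2 (k + 3), ⟨h1, h2, Or.inr h3, Or.inr h4, h5⟩, h3, h4, ?_, ?_,
    fun h => no_bound k (bt_of_order h), no_bound k⟩
  · refine ⟨((Polynomial.C 1280 - Polynomial.C 4005 * Polynomial.X ^ (k + 3) +
      Polynomial.C 4200 * (Polynomial.X ^ (k + 3)) ^ 2 -
      Polynomial.C 1469 * (Polynomial.X ^ (k + 3)) ^ 3) * Polynomial.C (1 / 1280)) *
      (1 - Polynomial.X ^ (k + 3) * Polynomial.C (1 / 2)), ?_⟩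
    funext x
    simp [v1, w1, w2, div_eq_mul_inv]
    left; ring
  · refine ⟨((Polynomial.C 1280 - Polynomial.C 4005 * Polynomial.X ^ (k + 3) +
      Polynomial.C 4200 * (Polynomial.X ^ (k + 3)) ^ 2 -
      Polynomial.C 1469 * (Polynomial.X ^ (k + 3)) ^ 3) * Polynomial.C (1 / 1280)), ?_⟩
    funext x
    simp [v2, w2, div_eq_mul_inv]

end

end Pool.Agent.H15.HM
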