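import Pool.Agent.H15.HM.Step

/-!
# Every admissible pair has a solution of finite order
-/

set_option autoImplicit false

namespace Pool.Agent.H15.HM

open Set Filter Topology MeasureTheory
open Pool.Agent.Y257.HM
open Pool.Agent.Results.MP_d888c7_an.NoBVSolution (IsWeight lam IsRSIntegral)

noncomputable section

theorem IsMom_shift {a : ℕ → ℝ} (ha : IsMom a) : IsMom (fun n => a (n + 1)) := by
  obtain ⟨μ, hμ, hμ0, hμn⟩ := ha
  have hmeas : Measurable (fun x : ℝ => ENNReal.ofReal x) := ENNReal.measurable_ofReal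
  refine ⟨μ.withDensity (fun x => ENNReal.ofReal x), ?_, ?_, fun n => ?_⟩
  · refine isFiniteMeasure_withDensity (ne_of_lt ?_)
    calc ∫⁻ x, ENNReal.ofReal x ∂μ ≤ ∫⁻ _, 1 ∂μ := by
          refine lintegral_mono_ae ((ae_mem hμ0).mono fun x hx => ?_)
          rw [← ENNReal.ofReal_one]
          exact ENNReal.ofReal_le_ofReal hx.2
      _ = μ univ := by simp
      _ < ⊤ := measure_lt_top μ univ
  · exact withDensity_absolutelyContinuous _ _ hμ0
  · rw [integral_withDensity_eq_integral_toReal_smul hmeas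
      (ae_of_all _ fun x => ENNReal.ofReal_lt_top)]
    show _ = a (n + 1)
    rw [← hμn (n + 1)]
    refine integral_congr_ae ((ae_mem hμ0).mono fun x hx => ?_)
    simp only [smul_eq_mul]
    rw [ENNReal.toReal_ofReal hx.1, pow_succ']

theorem IsMom_shift_iter {a : ℕ → ℝ} (ha : IsMom a) (k : ℕ) : IsMom (fun n => a (n + k)) := by
  induction k with
  | zero => exact ha
  | succ k ih =>
    have h := IsMom_shift ih
    convert h using 2 with n
    congr 1
    omega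

theorem IsDiff_shift_iter {a : ℕ → ℝ} (ha : IsDiff a) (k : ℕ) : IsDiff (fun n => a (n + k)) := by
  obtain ⟨p, q, hp, hq, h⟩ := ha
  exact ⟨_, _, IsMom_shift_iter hp k, IsMom_shift_iter hq k, fun n => h (n + k)⟩

theorem IsMom_bound {a : ℕ → ℝ} (ha : IsMom a) : ∃ K : ℝ, 0 ≤ K ∧ ∀ (p : Polynomial ℝ) (M : ℝ),
    (∀ x ∈ Icc (0 : ℝ) 1, |p.eval x| ≤ M) → |p.sum fun j c => c * a j| ≤ K * M := by
  obtain ⟨μ, hμ, hμ0, hμn⟩ := ha
  refine ⟨μ.real univ, measureReal_nonneg, fun p M hM => ?_⟩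
  have h1 : (p.sum fun j c => c * a j) = ∫ x, p.eval x ∂μ := by
    have h2 : ∀ x : ℝ, p.eval x = ∑ j ∈ p.support, p.coeff j * x ^ j := fun x => by
      rw [Polynomial.eval_eq_sum, Polynomial.sum_def]
    simp only [h2]
    rw [integral_finsetSum _ (fun j _ => (integrable_pow hμ0 j).const_mul _), Polynomial.sum_def]
    refine Finset.sum_congr rfl fun j _ => ?_
    rw [integral_const_mul, hμn]
  rw [h1]
  have h3 := norm_integral_le_of_norm_le_const (μ := μ) (f := fun x => p.eval x) (C := M)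
    ((ae_mem hμ0).mono fun x hx => by simpa using hM x hx)
  rw [mul_comm]
  exact h3

theorem IsDiff_order {a : ℕ → ℝ} (ha : IsDiff a) : OrderLE 0 a := by
  obtain ⟨p, q, hp, hq, h⟩ := ha
  obtain ⟨K, hK, h1⟩ := IsMom_bound hp
  obtain ⟨K', hK', h2⟩ := IsMom_bound hq
  refine ⟨K + K', fun P M hM => ?_⟩
  have hM0 : ∀ x ∈ Icc (0 : ℝ) 1, |P.eval x| ≤ M := fun x hx => hM 0 le_rfl x hx
  have e : (P.sum fun j c => c * a j) =
      (P.sum fun j c => c * p j) - P.sum fun j c => c * q j := by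
    simp only [Polynomial.sum_def, h, mul_sub, Finset.sum_sub_distrib]
  rw [e, add_mul]
  exact (abs_sub _ _).trans (add_le_add (h1 P M hM0) (h2 P M hM0))

/-- the reciprocal of a constant plus a small moment sequence -/
theorem inv_small {m : ℕ → ℝ} (hm : IsMom m) {c : ℝ} (hc : 0 < c) (hs : m 0 < c) :
    IsDiff (fun n => (c + m n)⁻¹) := by
  have h1 : IsMom (fun n => c⁻¹ * m n) := hm.smul (inv_pos.mpr hc).le
  have h2 : c⁻¹ * m 0 < 1 := by rwa [inv_mul_lt_iff₀ hc, mul_one]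
  have h20 : 0 ≤ c⁻¹ * m 0 := h1.nonneg 0
  have h3 : IsMom (fun n => (1 - (c⁻¹ * m n) * (c⁻¹ * m n))⁻¹) := by
    apply IsMom.geom (h1.mul h1)
    nlinarith
  have h4 : IsDiff (fun n => 1 - c⁻¹ * m n) := isMom_one.isDiff.sub h1.isDiff
  have h5 := (isMom_const (inv_pos.mpr hc).le).isDiff.mul (h4.mul h3.isDiff)
  convert h5 using 2 with n
  have h6 : c⁻¹ * m n < 1 := lt_of_le_of_lt (h1.le_zero n) h2
  have h7 : 0 ≤ c⁻¹ * m n := h1.nonneg n
  have h8 : 1 - (c⁻¹ * m n) * (c⁻¹ * m n) = (1 - c⁻¹ * m n) * (1 + c⁻¹ * m n) := by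
    ring
  have h9 : (1 - c⁻¹ * m n) ≠ 0 := by linarith
  have h10 : c + m n = c * (1 + c⁻¹ * m n) := by
    field_simp
  rw [h8, h10, mul_inv, mul_inv, ← mul_assoc (1 - c⁻¹ * m n), mul_inv_cancel₀ h9, one_mul]

/-- the moments of a measure without mass at `1` tend to `0` -/
theorem tendsto_mom {ν : Measure ℝ} [IsFiniteMeasure ν] (h0 : ν (Icc 0 1)ᶜ = 0)
    (h1 : ν {1} = 0) : Tendsto (fun n : ℕ => ∫ x, x ^ n ∂ν) atTop (𝓝 0) := by
  have h2 : ∀ᵐ x ∂ν, x ∉ ({1} : Set ℝ) := measure_eq_zero_iff_ae_notMem.mp h1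
  have h3 := tendsto_integral_of_dominated_convergence (μ := ν) (F := fun (n : ℕ) (x : ℝ) => x ^ n)
    (f := fun _ => (0 : ℝ)) (fun _ => (1 : ℝ)) (fun n => by fun_prop) (integrable_const _)
    (fun n => (ae_mem h0).mono fun x hx => by
      rw [Real.norm_eq_abs, abs_of_nonneg (pow_nonneg hx.1 n)]
      exact pow_le_one₀ hx.1 hx.2)
    (by
      filter_upwards [ae_mem h0, h2] with x hx hx2
      exact tendsto_pow_atTop_nhds_zero_of_lt_one hx.1 (lt_of_le_of_ne hx.2 (fun h => hx2 h)))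
  simpa using h3

/-- no mass at `1` -/
theorem no_atom {ν : Measure ℝ} [IsFiniteMeasure ν] {g : ℝ → ℝ} (hc : ContinuousOn g (Icc 0 1))
    (h : ∀ x ∈ Icc (0 : ℝ) 1, cdf' ν x = g x - g 0) : ν {1} = 0 := by
  have h1 : ∀ x ∈ Icc (0 : ℝ) 1, x < 1 → ν.real {1} ≤ g 1 - g x := by
    intro x hx hx1
    have e : g 1 - g x = cdf' ν 1 - cdf' ν x := by
      rw [h x hx, h 1 ⟨zero_le_one, le_rfl⟩]; ring
    rw [e, cdf', cdf', ← measureReal_sdiff (Iic_subset_Iic.mpr hx.2) measurableSet_Iic]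
    refine measureReal_mono ?_
    rintro y rfl
    exact ⟨mem_Iic.mpr le_rfl, fun hy => absurd hx1 (not_lt.mpr (mem_Iic.mp hy))⟩
  have h2 : Tendsto (fun j : ℕ => 1 - 1 / ((j : ℝ) + 1)) atTop (𝓝[Icc 0 1] 1) := by
    rw [tendsto_nhdsWithin_iff]
    constructor
    · simpa using tendsto_one_div_add_atTop_nhds_zero_nat.const_sub (1 : ℝ)
    · refine Eventually.of_forall fun j => ?_
      have hj : (0 : ℝ) < (j : ℝ) + 1 := by positivity
      have hj2 : 1 / ((j : ℝ) + 1) ≤ 1 := by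
        rw [div_le_one hj]
        linarith [(Nat.cast_nonneg j : (0 : ℝ) ≤ j)]
      have hj3 : 0 < 1 / ((j : ℝ) + 1) := by positivity
      exact ⟨by linarith, by linarith⟩
  have h3 := (hc 1 ⟨zero_le_one, le_rfl⟩).tendsto.comp h2
  have h4 : ν.real {1} ≤ 0 := by
    have h5 := h3.const_sub (g 1)
    rw [sub_self] at h5
    refine ge_of_tendsto h5 (Eventually.of_forall fun j => ?_)
    have hj : (0 : ℝ) < (j : ℝ) + 1 := by positivity
    have hj2 : 1 / ((j : ℝ) + 1) ≤ 1 := by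
      rw [div_le_one hj]
      linarith [(Nat.cast_nonneg j : (0 : ℝ) ≤ j)]
    have hj3 : 0 < 1 / ((j : ℝ) + 1) := by positivity
    exact h1 _ ⟨by linarith, by linarith⟩ (by linarith)
  have h6 : ν.real {1} = 0 := le_antisymm h4 measureReal_nonneg
  rwa [measureReal_eq_zero_iff] at h6

theorem A_antitone' {ω : ℝ → ℝ} (h : IsWeight ω) (ha : AntitoneOn ω (Icc 0 1)) :
    ∃ m : ℕ → ℝ, IsMom m ∧ Tendsto m atTop (𝓝 0) ∧ ∀ n, A ω n = ω 1 + m n := by
  obtain ⟨ν, hν, hν0, hνc⟩ := exists_measure (fun x => - ω x) h.continuousOn.neg ha.neg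
  have hu : ν.real univ = 1 - ω 1 := by
    have h1 := hνc 1 mem1
    rw [cdf', h.map_zero] at h1
    have h2 : ν.real (Iic 1) = ν.real univ := by
      apply measureReal_congr
      apply ae_eq_univ.mpr
      apply measure_mono_null _ hν0
      intro x hx hx'
      exact hx hx'.2
    linarith
  refine ⟨fun n => ∫ x, x ^ n ∂ν, ⟨ν, hν, hν0, fun n => rfl⟩,
    tendsto_mom hν0 (no_atom h.continuousOn.neg hνc), ?_⟩
  intro n
  rw [A_eq ω (-1) ν hν0 (fun x hx => by rw [hνc x hx, h.map_zero]; ring) n, hu]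
  ring

/-- some shift of the sequence is a difference of two moment sequences -/
theorem shift_isDiff {ω₁ ω₂ : ℝ → ℝ} (h : Admissible ω₁ ω₂) :
    ∃ k : ℕ, IsDiff (fun n => lam ω₁ ω₂ (n + k)) := by
  have h1 := A_isDiff h.weight₁ h.mono₁
  have key : ∃ k : ℕ, IsDiff (fun n => (A ω₂ (n + k))⁻¹) := by
    rcases h.mono₂ with hm | hm
    · exact ⟨0, (inv_monotone h.weight₂ hm).isDiff⟩
    · obtain ⟨m, hm1, hm2, hm3⟩ := A_antitone' h.weight₂ hm
      have hc := h.weight₂.pos 1 mem1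
      obtain ⟨k, hk⟩ := (hm2.eventually (gt_mem_nhds hc)).exists
      refine ⟨k, ?_⟩
      have h2 := inv_small (IsMom_shift_iter hm1 k) hc (by simpa using hk)
      convert h2 using 2 with n
      rw [hm3]
  obtain ⟨k, hk⟩ := key
  refine ⟨k, ?_⟩
  have h3 := (IsDiff_shift_iter h1 k).mul hk
  convert h3 using 2 with n
  rw [lam_eq]

theorem pos {ω₁ ω₂ : ℝ → ℝ} (h : Admissible ω₁ ω₂) :
    ∃ k : ℕ, OrderLE k (lam ω₁ ω₂) ∧ ∃ β : ℝ → ℝ, BoundedVariationOn β (Icc 0 1) ∧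
      ∀ n : ℕ, IsRSIntegral (fun x => x ^ n) β (lam ω₁ ω₂ (n + k)) := by
  obtain ⟨k, hk⟩ := shift_isDiff h
  exact ⟨k, OrderLE.unshift_iter (IsDiff_order hk), hk.solution⟩

end

end Pool.Agent.H15.HM
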