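import Pool.Agent.H15.HM.Neg
import Pool.Graph.R_seed8.Y257.HM.Pos

/-!
# Shifting a sequence
-/

set_option autoImplicit false

namespace Pool.Agent.H15.HM

open Set Filter Topology MeasureTheory
open Pool.Agent.Results.MP_d888c7_an.NoSolution (bt)
open Polynomial (X C derivative)

noncomputable section

theorem bt_shift (a : ℕ → ℂ) (N : ℕ) :
    bt a (N + 1) = bt a N - bt (fun j => a (j + 1)) N := by
  have h1 : bt a N = ∑ j ∈ Finset.range (N + 2), (-1) ^ j * (N.choose j : ℂ) * a j := by
    rw [Finset.sum_range_succ, bt]; simp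
  rw [h1, bt, bt, Finset.sum_range_succ', Finset.sum_range_succ' _ (N + 1),
    add_sub_right_comm, ← Finset.sum_sub_distrib]
  congr 1
  · refine Finset.sum_congr rfl (fun j _ => ?_)
    have h3 : (((N + 1).choose (j + 1) : ℕ) : ℂ) = (N.choose j : ℂ) + (N.choose (j + 1) : ℂ) := by
      exact_mod_cast Nat.choose_succ_succ' N j
    rw [h3]
    ring
  · simp

theorem bt_unshift {a : ℕ → ℂ} {k : ℕ}
    (h : ∃ C : ℝ, ∀ N, ‖bt (fun j => a (j + 1)) N‖ ≤ C * (N + 1) ^ k) :
    ∃ C : ℝ, ∀ N, ‖bt a N‖ ≤ C * (N + 1) ^ (k + 1) := by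
  obtain ⟨C, hC⟩ := h
  have hC0 : 0 ≤ C := by simpa using (norm_nonneg _).trans (hC 0)
  refine ⟨‖a 0‖ + C, fun N => ?_⟩
  have key : ‖bt a N‖ ≤ ‖a 0‖ + N * (C * ((N : ℝ) + 1) ^ k) := by
    induction N with
    | zero => simp [bt]
    | succ N ih =>
      rw [bt_shift]
      refine (norm_sub_le _ _).trans ?_
      have h1 := hC N
      have hN : (0 : ℝ) ≤ N := Nat.cast_nonneg N
      have h2 : C * ((N : ℝ) + 1) ^ k ≤ C * (((N + 1 : ℕ) : ℝ) + 1) ^ k := by
        push_cast
        gcongr
        linarith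
      have h3 : (N : ℝ) * (C * ((N : ℝ) + 1) ^ k) ≤ N * (C * (((N + 1 : ℕ) : ℝ) + 1) ^ k) :=
        mul_le_mul_of_nonneg_left h2 hN
      have h4 : (((N + 1 : ℕ) : ℝ)) * (C * (((N + 1 : ℕ) : ℝ) + 1) ^ k) =
          N * (C * (((N + 1 : ℕ) : ℝ) + 1) ^ k) + C * (((N + 1 : ℕ) : ℝ) + 1) ^ k := by
        push_cast; ring
      rw [h4]
      linarith
  have hN : (0 : ℝ) ≤ N := Nat.cast_nonneg N
  have h5 : (1 : ℝ) ≤ ((N : ℝ) + 1) ^ (k + 1) := one_le_pow₀ (by linarith)
  have h6 : (N : ℝ) * (C * ((N : ℝ) + 1) ^ k) ≤ C * ((N : ℝ) + 1) ^ (k + 1) := by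
    rw [pow_succ]
    have : 0 ≤ C * ((N : ℝ) + 1) ^ k := by positivity
    nlinarith
  have h7 : ‖a 0‖ ≤ ‖a 0‖ * ((N : ℝ) + 1) ^ (k + 1) :=
    le_mul_of_one_le_right (norm_nonneg _) h5
  rw [add_mul]
  linarith

theorem bt_unshift_iter {k : ℕ} : ∀ {a : ℕ → ℂ},
    (∃ C : ℝ, ∀ N, ‖bt (fun j => a (j + k)) N‖ ≤ C * (N + 1) ^ 0) →
    ∃ C : ℝ, ∀ N, ‖bt a N‖ ≤ C * (N + 1) ^ k := by
  induction k with
  | zero => exact fun h => h
  | succ k ih =>
    intro a h
    apply bt_unshift
    apply ih (a := fun j => a (j + 1))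
    exact h

/-! ### The order of a functional -/

theorem der_X (q : Polynomial ℝ) (i : ℕ) : derivative^[i + 1] (X * q) =
    X * derivative^[i + 1] q + C ((i : ℝ) + 1) * derivative^[i] q := by
  induction i with
  | zero =>
    simp only [Function.iterate_succ_apply', Function.iterate_zero, id_eq,
      Polynomial.derivative_mul, Polynomial.derivative_X, Nat.cast_zero, zero_add, map_one]
    ring
  | succ i ih =>
    have e1 : derivative (derivative^[i + 1] q) = derivative^[i + 1 + 1] q :=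
      (Function.iterate_succ_apply' _ _ _).symm
    have e2 : derivative (derivative^[i] q) = derivative^[i + 1] q :=
      (Function.iterate_succ_apply' _ _ _).symm
    rw [Function.iterate_succ_apply', ih, Polynomial.derivative_add, Polynomial.derivative_mul,
      Polynomial.derivative_C_mul, Polynomial.derivative_X, e1, e2]
    push_cast
    simp only [map_add, map_one]
    ring

theorem poly_nonneg (P : Polynomial ℝ) (h0 : P.eval 0 = 0)
    (h : ∀ x ∈ Icc (0 : ℝ) 1, 0 ≤ (derivative P).eval x) (x : ℝ) (hx : x ∈ Icc (0 : ℝ) 1) :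
    0 ≤ P.eval x := by
  have h1 : MonotoneOn (fun x => P.eval x) (Icc (0 : ℝ) 1) := by
    refine monotoneOn_of_deriv_nonneg (convex_Icc 0 1) P.continuous.continuousOn
      P.differentiable.differentiableOn (fun y hy => ?_)
    rw [Polynomial.deriv]
    exact h y (interior_subset hy)
  have h2 := h1 ⟨le_rfl, zero_le_one⟩ hx hx.1
  simp only at h2
  rwa [h0] at h2

theorem divX_bound (p : Polynomial ℝ) (M : ℝ) (i : ℕ)
    (h : ∀ x ∈ Icc (0 : ℝ) 1, |(derivative^[i + 1] p).eval x| ≤ M) (x : ℝ)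
    (hx : x ∈ Icc (0 : ℝ) 1) : |(derivative^[i] p.divX).eval x| ≤ M := by
  have hM : 0 ≤ M := (abs_nonneg _).trans (h x hx)
  set q := p.divX with hq
  set u := derivative^[i] q with hu
  have hp : X * q + C (p.coeff 0) = p := by
    rw [mul_comm]; exact Polynomial.divX_mul_X_add p
  have h1 : derivative^[i + 1] p = X * derivative u + C ((i : ℝ) + 1) * u := by
    conv_lhs => rw [← hp]
    rw [iterate_map_add, Polynomial.iterate_derivative_C (Nat.succ_pos i),
      add_zero, der_X, Function.iterate_succ_apply']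
  have h2 : ∀ y, (derivative^[i + 1] p).eval y =
      y * (derivative u).eval y + ((i : ℝ) + 1) * u.eval y := by
    intro y
    rw [h1]
    simp
  rcases eq_or_lt_of_le hx.1 with h0 | h0
  · rw [← h0]
    have h3 := h 0 ⟨le_rfl, zero_le_one⟩
    rw [h2 0, zero_mul, zero_add, abs_mul, abs_of_nonneg (by positivity : (0 : ℝ) ≤ (i : ℝ) + 1)] at h3
    have h4 : |u.eval 0| ≤ ((i : ℝ) + 1) * |u.eval 0| :=
      le_mul_of_one_le_left (abs_nonneg _) (by linarith [(Nat.cast_nonneg i : (0 : ℝ) ≤ i)])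
    exact h4.trans h3
  · have hi : (0 : ℝ) ≤ i := Nat.cast_nonneg i
    have key : ∀ s : ℝ, (s = 1 ∨ s = -1) → 0 ≤ x ^ (i + 1) * (M - s * u.eval x) := by
      intro s hs
      have h3 := poly_nonneg (X ^ (i + 1) * (C M - C s * u)) (by simp) (fun y hy => ?_) x hx
      · simpa using h3
      · have h4 : (derivative (X ^ (i + 1) * (C M - C s * u))).eval y =
            y ^ i * (((i : ℝ) + 1) * M - s * (derivative^[i + 1] p).eval y) := by
          rw [h2 y]
          simp only [Polynomial.derivative_mul, Polynomial.derivative_X_pow, Polynomial.derivative_sub,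
            Polynomial.derivative_C, Polynomial.eval_add, Polynomial.eval_mul, Polynomial.eval_sub,
            Polynomial.eval_C, Polynomial.eval_pow, Polynomial.eval_X, Nat.add_sub_cancel]
          push_cast
          simp only [Polynomial.eval_zero]
          ring
        rw [h4]
        have h5 := abs_le.mp (h y hy)
        refine mul_nonneg (pow_nonneg hy.1 _) ?_
        have h6 : M ≤ ((i : ℝ) + 1) * M := le_mul_of_one_le_left hM (by linarith)
        rcases hs with rfl | rfl
        · linarith [h5.2]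
        · linarith [h5.1]
    have hpos : 0 < x ^ (i + 1) := pow_pos h0 _
    have k1 := key 1 (Or.inl rfl)
    have k2 := key (-1) (Or.inr rfl)
    have k1' := (mul_nonneg_iff_of_pos_left hpos).mp k1
    have k2' := (mul_nonneg_iff_of_pos_left hpos).mp k2
    rw [abs_le]
    constructor <;> linarith

theorem OrderLE.unshift {k : ℕ} {a : ℕ → ℝ} (h : OrderLE k (fun n => a (n + 1))) :
    OrderLE (k + 1) a := by
  obtain ⟨K, hK⟩ := h
  refine ⟨|a 0| + K, fun p M hM => ?_⟩
  have h1 := hK p.divX M (fun i hi x hx => divX_bound p M i (hM (i + 1) (by omega)) x hx)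
  have h0 : |p.coeff 0| ≤ M := by
    have := hM 0 (Nat.zero_le _) 0 ⟨le_rfl, zero_le_one⟩
    rwa [Function.iterate_zero, id_eq, ← Polynomial.coeff_zero_eq_eval_zero] at this
  have h2 : (p.sum fun j c => c * a j) =
      p.coeff 0 * a 0 + p.divX.sum fun j c => c * a (j + 1) := by
    rw [Polynomial.sum_over_range' p (fun n => by simp) (p.natDegree + 1 + 1) (by omega),
      Polynomial.sum_over_range' p.divX (fun n => by simp) (p.natDegree + 1) (by
        rw [Polynomial.natDegree_divX_eq_natDegree_tsub_one]; omega),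
      Finset.sum_range_succ', add_comm]
    simp only [Polynomial.coeff_divX]
  rw [h2]
  refine (abs_add_le _ _).trans ?_
  rw [abs_mul, add_mul]
  have h3 : |p.coeff 0| * |a 0| ≤ |a 0| * M := by
    rw [mul_comm]; exact mul_le_mul_of_nonneg_left h0 (abs_nonneg _)
  linarith

theorem OrderLE.unshift_iter {k : ℕ} : ∀ {a : ℕ → ℝ}, OrderLE 0 (fun n => a (n + k)) →
    OrderLE k a := by
  induction k with
  | zero => exact fun h => h
  | succ k ih =>
    intro a h
    apply OrderLE.unshift
    apply ih (a := fun j => a (j + 1))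
    exact h

end

end Pool.Agent.H15.HM
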